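import Pool.Agent.Helper80.TK.Vert

/-!
# The tables of the width node

`tab` are the lists `L = 0, …, 9` of the page (codes `e + 16 f`), `vt` the vertices of the set `e`.
-/

set_option autoImplicit false

namespace Pool.Agent.Helper21.TK

open Pool.Agent.Helper80.TK

/-- the children of a width node, by classes and list number -/
def tab : Bool → Bool → Bool → List (List ℕ)
  | false, false, false => [[80, 160, 240, 5, 165, 245, 10, 90, 250, 15, 95, 175],
      [160, 240, 161, 241, 10, 26, 250, 15, 31, 175],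
      [80, 240, 5, 37, 245, 82, 242, 15, 95, 47],
      [240, 241, 242, 15, 31, 47],
      [80, 160, 5, 165, 53, 10, 90, 58, 83, 163],
      [160, 161, 10, 26, 58, 163],
      [80, 5, 37, 53, 82, 83],
      [],
      [64, 69, 74, 79],
      [64, 65, 66, 67]]
  | false, false, true => [[80, 160, 240, 5, 165, 245, 10, 90, 250, 15, 95, 175],
      [208, 160, 240, 13, 161, 173, 241, 10, 26, 218, 250, 15, 31, 175],
      [80, 224, 240, 5, 37, 229, 245, 14, 82, 94, 242, 15, 95, 47],
      [208, 224, 240, 13, 225, 45, 241, 14, 210, 30, 242, 15, 31, 47],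
      [80, 160, 112, 176, 5, 165, 53, 181, 10, 90, 58, 122, 7, 11, 83, 91, 163, 167],
      [208, 160, 112, 176, 13, 161, 173, 49, 177, 10, 26, 218, 58, 122, 7, 11, 19, 27, 163, 167],
      [80, 224, 112, 176, 5, 37, 229, 53, 181, 14, 82, 94, 50, 114, 7, 11, 83, 91, 35, 39],
      [208, 224, 112, 176, 13, 225, 45, 49, 177, 14, 210, 30, 50, 114, 7, 11, 19, 27, 35, 39],
      [64, 69, 74, 79],
      [64, 65, 77, 66, 78, 67, 71, 75]]
  | false, true, false => [[80, 160, 240, 5, 165, 245, 10, 90, 250, 15, 95, 175],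
      [144, 160, 240, 9, 161, 241, 249, 10, 26, 250, 15, 31, 159, 175],
      [80, 96, 224, 240, 5, 37, 229, 245, 6, 14, 82, 94, 242, 246, 15, 95, 47, 111],
      [144, 96, 224, 240, 9, 33, 225, 241, 249, 6, 14, 18, 30, 242, 246, 15, 31, 159, 47, 111],
      [80, 160, 176, 5, 165, 53, 181, 10, 90, 58, 11, 83, 91, 163],
      [144, 160, 176, 9, 161, 177, 57, 10, 26, 58, 11, 147, 27, 163],
      [80, 96, 224, 176, 5, 37, 229, 53, 181, 6, 14, 82, 94, 50, 54, 11, 83, 91, 35, 99],
      [144, 96, 224, 176, 9, 33, 225, 177, 57, 6, 14, 18, 30, 50, 54, 11, 147, 27, 35, 99],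
      [64, 69, 74, 79],
      [64, 65, 73, 66, 70, 78, 67, 75]]
  | false, true, true => [[80, 160, 240, 5, 165, 245, 10, 90, 250, 15, 95, 175],
      [144, 208, 160, 240, 9, 13, 161, 173, 241, 249, 10, 26, 218, 250, 15, 31, 159, 175],
      [80, 96, 240, 5, 37, 245, 6, 82, 242, 246, 15, 95, 47, 111],
      [144, 208, 96, 240, 9, 13, 33, 45, 241, 249, 6, 18, 210, 242, 246, 15, 31, 159, 47, 111],
      [80, 160, 112, 5, 165, 53, 10, 90, 58, 122, 7, 83, 163, 167],
      [144, 208, 160, 112, 9, 13, 161, 173, 49, 57, 10, 26, 218, 58, 122, 7, 19, 147, 163, 167],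
      [80, 96, 112, 5, 37, 53, 6, 82, 114, 54, 7, 83, 99, 39],
      [144, 208, 96, 112, 9, 13, 33, 45, 49, 57, 6, 18, 210, 114, 54, 7, 19, 147, 99, 39],
      [64, 69, 74, 79],
      [64, 65, 73, 77, 66, 70, 67, 71]]
  | true, false, false => [[80, 160, 240, 5, 165, 245, 10, 90, 250, 15, 95, 175],
      [144, 208, 160, 240, 9, 13, 161, 173, 241, 249, 10, 26, 218, 250, 15, 31, 159, 175],
      [80, 96, 240, 5, 37, 245, 6, 82, 242, 246, 15, 95, 47, 111],
      [144, 208, 96, 240, 9, 13, 33, 45, 241, 249, 6, 18, 210, 242, 246, 15, 31, 159, 47, 111],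
      [80, 160, 112, 5, 165, 53, 10, 90, 58, 122, 7, 83, 163, 167],
      [144, 208, 160, 112, 9, 13, 161, 173, 49, 57, 10, 26, 218, 58, 122, 7, 19, 147, 163, 167],
      [80, 96, 112, 5, 37, 53, 6, 82, 114, 54, 7, 83, 99, 39],
      [144, 208, 96, 112, 9, 13, 33, 45, 49, 57, 6, 18, 210, 114, 54, 7, 19, 147, 99, 39],
      [64, 69, 74, 79],
      [64, 65, 73, 77, 66, 70, 67, 71]]
  | true, false, true => [[80, 160, 240, 5, 165, 245, 10, 90, 250, 15, 95, 175],
      [144, 160, 240, 9, 161, 241, 249, 10, 26, 250, 15, 31, 159, 175],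
      [80, 96, 224, 240, 5, 37, 229, 245, 6, 14, 82, 94, 242, 246, 15, 95, 47, 111],
      [144, 96, 224, 240, 9, 33, 225, 241, 249, 6, 14, 18, 30, 242, 246, 15, 31, 159, 47, 111],
      [80, 160, 176, 5, 165, 53, 181, 10, 90, 58, 11, 83, 91, 163],
      [144, 160, 176, 9, 161, 177, 57, 10, 26, 58, 11, 147, 27, 163],
      [80, 96, 224, 176, 5, 37, 229, 53, 181, 6, 14, 82, 94, 50, 54, 11, 83, 91, 35, 99],
      [144, 96, 224, 176, 9, 33, 225, 177, 57, 6, 14, 18, 30, 50, 54, 11, 147, 27, 35, 99],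
      [64, 69, 74, 79],
      [64, 65, 73, 66, 70, 78, 67, 75]]
  | true, true, false => [[80, 160, 240, 5, 165, 245, 10, 90, 250, 15, 95, 175],
      [208, 160, 240, 13, 161, 173, 241, 10, 26, 218, 250, 15, 31, 175],
      [80, 224, 240, 5, 37, 229, 245, 14, 82, 94, 242, 15, 95, 47],
      [208, 224, 240, 13, 225, 45, 241, 14, 210, 30, 242, 15, 31, 47],
      [80, 160, 112, 176, 5, 165, 53, 181, 10, 90, 58, 122, 7, 11, 83, 91, 163, 167],
      [208, 160, 112, 176, 13, 161, 173, 49, 177, 10, 26, 218, 58, 122, 7, 11, 19, 27, 163, 167],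
      [80, 224, 112, 176, 5, 37, 229, 53, 181, 14, 82, 94, 50, 114, 7, 11, 83, 91, 35, 39],
      [208, 224, 112, 176, 13, 225, 45, 49, 177, 14, 210, 30, 50, 114, 7, 11, 19, 27, 35, 39],
      [64, 69, 74, 79],
      [64, 65, 77, 66, 78, 67, 71, 75]]
  | true, true, true => [[80, 160, 240, 5, 165, 245, 10, 90, 250, 15, 95, 175],
      [160, 240, 161, 241, 10, 26, 250, 15, 31, 175],
      [80, 240, 5, 37, 245, 82, 242, 15, 95, 47],
      [240, 241, 242, 15, 31, 47],
      [80, 160, 5, 165, 53, 10, 90, 58, 83, 163],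
      [160, 161, 10, 26, 58, 163],
      [80, 5, 37, 53, 82, 83],
      [],
      [64, 69, 74, 79],
      [64, 65, 66, 67]]

/-- the vertices (codes `i + 4 a`) of a set -/
def vt : Bool → Bool → Bool → List (List ℕ)
  | false, false, false => [[0],
      [1],
      [2],
      [3],
      [0, 1, 2, 3],
      [1],
      [],
      [],
      [],
      [],
      [2],
      [],
      [],
      [],
      [],
      [3]]
  | false, false, true => [[0],
      [1],
      [2],
      [3],
      [0, 1, 13, 2, 14, 3, 7, 11],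
      [1, 13],
      [],
      [7],
      [],
      [],
      [2, 14],
      [11],
      [],
      [13],
      [14],
      [3, 7, 11]]
  | false, true, false => [[0],
      [1],
      [2],
      [3],
      [0, 1, 9, 2, 6, 14, 3, 11],
      [1, 9],
      [6],
      [],
      [],
      [9],
      [2, 6, 14],
      [11],
      [],
      [],
      [14],
      [3, 11]]
  | false, true, true => [[0],
      [1],
      [2],
      [3],
      [0, 1, 9, 13, 2, 6, 3, 7],
      [1, 9, 13],
      [6],
      [7],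
      [],
      [9],
      [2, 6],
      [],
      [],
      [13],
      [],
      [3, 7]]
  | true, false, false => [[0],
      [1],
      [2],
      [3],
      [0, 1, 9, 13, 2, 6, 3, 7],
      [1, 9, 13],
      [6],
      [7],
      [],
      [9],
      [2, 6],
      [],
      [],
      [13],
      [],
      [3, 7]]
  | true, false, true => [[0],
      [1],
      [2],
      [3],
      [0, 1, 9, 2, 6, 14, 3, 11],
      [1, 9],
      [6],
      [],
      [],
      [9],
      [2, 6, 14],
      [11],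
      [],
      [],
      [14],
      [3, 11]]
  | true, true, false => [[0],
      [1],
      [2],
      [3],
      [0, 1, 13, 2, 14, 3, 7, 11],
      [1, 13],
      [],
      [7],
      [],
      [],
      [2, 14],
      [11],
      [],
      [13],
      [14],
      [3, 7, 11]]
  | true, true, true => [[0],
      [1],
      [2],
      [3],
      [0, 1, 2, 3],
      [1],
      [],
      [],
      [],
      [],
      [2],
      [],
      [],
      [],
      [],
      [3]]

/-- the set `e` contains the vertex `(i, a)` -/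
def mt (e : ℕ) (i a : Fin 4) : Prop := e = 4 ∨ (e % 4 = i.val ∧ (e / 4 = i.val ∨ e / 4 = a.val))

instance (e : ℕ) (i a : Fin 4) : Decidable (mt e i a) := by unfold mt; infer_instance

theorem vec_cls (cls : Fin 3 → Bool) : (![cls 0, cls 1, cls 2] : Fin 3 → Bool) = cls := by
  funext i
  fin_cases i <;> rfl

theorem tab_all : ∀ (b0 b1 b2 : Bool) (m : Fin 10) (i j a b : Fin 4), Adm ![b0, b1, b2] i j a b →
    ∃ code ∈ (tab b0 b1 b2).getD m.val [], mt (code % 16) i a ∧ mt (code / 16) j b := by
  decide +kernel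

/-- every admissible pair of vertices lies in an entry of every list -/
theorem tab_ok (cls : Fin 3 → Bool) {m : ℕ} (hm : m < 10) {i j a b : Fin 4} (h : Adm cls i j a b) :
    ∃ code ∈ (tab (cls 0) (cls 1) (cls 2)).getD m [], mt (code % 16) i a ∧ mt (code / 16) j b := by
  have h1 := tab_all (cls 0) (cls 1) (cls 2) ⟨m, hm⟩ i j a b
  rw [vec_cls] at h1
  exact h1 h

theorem vt_all : ∀ (b0 b1 b2 : Bool) (e : Fin 16) (i a : Fin 4), (i = 0 → a = 0) →
    (i ≠ 0 → cc ![b0, b1, b2] a ≠ cc ![b0, b1, b2] i) → mt e.val i a →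
    (i.val + 4 * a.val) ∈ (vt b0 b1 b2).getD e.val [] := by
  decide +kernel

/-- every vertex of a set is in the list of the set -/
theorem vt_ok (cls : Fin 3 → Bool) {e : ℕ} (he : e < 16) {i a : Fin 4} (h0 : i = 0 → a = 0)
    (h1 : i ≠ 0 → cc cls a ≠ cc cls i) (hm : mt e i a) :
    (i.val + 4 * a.val) ∈ (vt (cls 0) (cls 1) (cls 2)).getD e [] := by
  have h2 := vt_all (cls 0) (cls 1) (cls 2) ⟨e, he⟩ i a h0
  rw [vec_cls] at h2
  exact h2 h1 hm

/-- the codes are small -/
theorem tab_lt : ∀ (b0 b1 b2 : Bool) (m : Fin 10), ∀ code ∈ (tab b0 b1 b2).getD m.val [], code < 256 := by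
  decide +kernel

theorem vt_lt : ∀ (b0 b1 b2 : Bool) (e : Fin 16), ∀ v ∈ (vt b0 b1 b2).getD e.val [], v < 16 := by
  decide +kernel

end Pool.Agent.Helper21.TK
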