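import Pool.Agent.Helper21.TK.Facts

/-!
# The facts with integer coefficients

`y i = 256 - t i`, `t i = 256 * d i`; the total scale is `2 ^ 28`.
-/

set_option autoImplicit false

namespace Pool.Agent.Helper21.TK

open Pool.Agent.Helper80.TK

/-- `256 - t` -/
def ty (d : Fin 3 → ℝ) (i : Fin 3) : ℝ := 256 - 256 * d i

/-- the third index -/
def th : Fin 3 → Fin 3 → Fin 3 := ![![0, 2, 1], ![2, 1, 0], ![1, 0, 2]]

/-- the coefficient of the chain with `C` at the facet `i`, version `k` -/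
def coC (cls : Fin 3 → Bool) (k i : Fin 3) (y : Fin 3 → ℝ) : ℝ :=
  if cls i = true then 4096 * (∏ l, if l = i then 1 else y l) else 4096 * ((y i + y k - 256) * y (th i k))

/-- the product over the class `B` without the facet `i` -/
def pb (cls : Fin 3 → Bool) (i : Fin 3) (y : Fin 3 → ℝ) : ℝ :=
  ∏ l, if l = i then 1 else if cls l = true then 256 else y l

/-- the product over the class `B` -/
def pball (cls : Fin 3 → Bool) (y : Fin 3 → ℝ) : ℝ := ∏ l, if cls l = true then 256 else y l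

theorem RC_int (cls : Fin 3 → Bool) (d : Fin 3 → ℝ) :
    2 ^ 28 * RC cls d = 16 * (ty d 0 * ty d 1 * ty d 2) := by
  unfold RC pf ty
  simp only [Fin.prod_univ_three]
  cases h0 : cls 0 <;> cases h1 : cls 1 <;> cases h2 : cls 2 <;>
    simp only [Bool.false_eq_true, Bool.true_eq_false, if_true, if_false] <;> ring

theorem fC_int {cls : Fin 3 → Bool} {k : Fin 3} (hk : cls k = true) (i : Fin 3) (d : Fin 3 → ℝ) :
    2 ^ 28 * fC cls k i d = coC cls k i (ty d) := by
  unfold fC coC qf pf ty th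
  simp only [Fin.prod_univ_three]
  fin_cases k <;> fin_cases i <;>
    cases h0 : cls 0 <;> cases h1 : cls 1 <;> cases h2 : cls 2 <;>
    simp [h0, h1, h2] at hk ⊢ <;> ring

theorem pf_int (cls : Fin 3 → Bool) (d : Fin 3 → ℝ) : 2 ^ 28 * pf cls false d = 16 * pball cls (ty d) := by
  unfold pf pball ty
  simp only [Fin.prod_univ_three]
  cases h0 : cls 0 <;> cases h1 : cls 1 <;> cases h2 : cls 2 <;>
    simp only [Bool.false_eq_true, Bool.true_eq_false, if_true, if_false] <;> ring

theorem fD_int_A {cls : Fin 3 → Bool} {i : Fin 3} (hi : cls i = true) (a b : Fin 3 → ℝ) (d : Fin 3 → ℝ) :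
    2 ^ 28 * fD cls (fun i => a i / 4096) (fun i => 256 * b i / 4096) i d =
      pb cls i (ty d) * (a i - b i * (256 * d i)) := by
  unfold fD pf pb ty
  rw [if_pos hi]
  simp only [Fin.prod_univ_three]
  fin_cases i <;>
    cases h0 : cls 0 <;> cases h1 : cls 1 <;> cases h2 : cls 2 <;>
    simp [h0, h1, h2] at hi ⊢ <;> ring

theorem fD_int_B {cls : Fin 3 → Bool} {i : Fin 3} (hi : cls i = false) (a b : Fin 3 → ℝ) (d : Fin 3 → ℝ) :
    2 ^ 28 * fD cls a b i d = 4096 * pb cls i (ty d) := by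
  unfold fD qf pb ty
  rw [if_neg (by rw [hi]; decide)]
  simp only [Fin.prod_univ_three]
  fin_cases i <;>
    cases h0 : cls 0 <;> cases h1 : cls 1 <;> cases h2 : cls 2 <;>
    simp [h0, h1, h2] at hi ⊢ <;> ring

theorem gC_int_A {cls : Fin 3 → Bool} {i : Fin 3} (hi : cls i = true) (a m : Fin 3 → ℝ) (d : Fin 3 → ℝ) :
    2 ^ 28 * gC cls a m i d = 4096 * (∏ l, if l = i then 1 else ty d l) := by
  unfold gC qf pf ty
  rw [if_pos hi]
  simp only [Fin.prod_univ_three]
  fin_cases i <;>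
    cases h0 : cls 0 <;> cases h1 : cls 1 <;> cases h2 : cls 2 <;>
    simp [h0, h1, h2] at hi ⊢ <;> ring

theorem gC_int_B {cls : Fin 3 → Bool} {i : Fin 3} (hi : cls i = false) (a m : Fin 3 → ℝ) (d : Fin 3 → ℝ) :
    2 ^ 28 * gC cls (fun i => a i / 4096) (fun i => 256 * m i / 4096) i d =
      (a i - m i * (256 * d i)) * (∏ l, if l = i then 1 else ty d l) := by
  unfold gC qf pf ty
  rw [if_neg (by rw [hi]; decide)]
  simp only [Fin.prod_univ_three]
  fin_cases i <;>
    cases h0 : cls 0 <;> cases h1 : cls 1 <;> cases h2 : cls 2 <;>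
    simp [h0, h1, h2] at hi ⊢ <;> ring

section

variable {W : ℝ} {F G : Matrix (Fin 3) (Fin 3) ℝ} {cls : Fin 3 → Bool} {d c s : Fin 3 → ℝ} {h : ℝ}
  {lab : (Fin 3 → ℤ) → Fin 5}

/-- **The chain with `C`** in the scale `2 ^ 28`. -/
theorem kr_chC_int (K : KR W F G cls d c s h lab) {k : Fin 3} (hk : cls k = true) {z : Fin 3 → Fin 3 → ℤ}
    {y : Fin 3 → ℤ} (hz : ∀ i, lab (z i) = i.succ.castSucc) (hy : lab y = 0) :
    16 * (ty d 0 * ty d 1 * ty d 2) ≤ ∑ i, coC cls k i (ty d) * yv F i.succ (z i - y) := by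
  have h1 := mul_le_mul_of_nonneg_left (kr_chC K hk hz hy) (by norm_num : (0 : ℝ) ≤ 2 ^ 28)
  rw [RC_int, Finset.mul_sum] at h1
  refine h1.trans (le_of_eq (Finset.sum_congr rfl fun i _ => ?_))
  rw [← mul_assoc, fC_int hk]

/-- the coefficient of the chain with `D` -/
def coD (cls : Fin 3 → Bool) (a b : Fin 3 → ℝ) (i : Fin 3) (d : Fin 3 → ℝ) : ℝ :=
  if cls i = true then pb cls i (ty d) * (a i - b i * (256 * d i)) else 4096 * pb cls i (ty d)

/-- **The chain with `D`** in the scale `2 ^ 28`, lines `a i - b i * t i ≥ 4096 * s i`. -/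
theorem kr_chD_int (K : KR W F G cls d c s h lab) {a b : Fin 3 → ℝ}
    (hab : ∀ i, cls i = true → 4096 * s i ≤ a i - b i * (256 * d i)) {z : Fin 3 → Fin 3 → ℤ}
    {y : Fin 3 → ℤ} (hz : ∀ i, lab (z i) = i.succ.castSucc) (hy : lab y = 4) :
    16 * pball cls (ty d) ≤ ∑ i, coD cls a b i d * yv F i.succ (z i - y) := by
  have h0 := kr_chD K (a := fun i => a i / 4096) (b := fun i => 256 * b i / 4096)
    (fun i hi => by
      have := hab i hi
      have e : a i / 4096 - 256 * b i / 4096 * d i = (a i - b i * (256 * d i)) / 4096 := by ring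
      rw [e, le_div_iff₀ (by norm_num)]
      linarith) hz hy
  have h1 := mul_le_mul_of_nonneg_left h0 (by norm_num : (0 : ℝ) ≤ 2 ^ 28)
  rw [pf_int, Finset.mul_sum] at h1
  refine h1.trans (le_of_eq (Finset.sum_congr rfl fun i _ => ?_))
  rw [← mul_assoc]
  unfold coD
  by_cases hi : cls i = true
  · rw [if_pos hi, fD_int_A hi]
  · rw [if_neg hi, fD_int_B (bne hi)]

/-- the first form of the test of the line -/
theorem kr_s_line (K : KR W F G cls d c s h lab) {i : Fin 3} (hi : cls i = true) {hh a b U : ℝ}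
    (h0 : 0 < hh) (h65 : hh ≤ 65536) (hb : 0 ≤ b) (hU : 0 ≤ U) (ht : 65536 * U + 256 * hh * b ≤ hh * a) :
    U * s i ≤ a - b * (256 * d i) := by
  have hd1 := K.ks.d1 i
  have h1 : U ≤ a - 256 * b := by
    by_contra hcon
    push Not at hcon
    have h4 : hh * (a - 256 * b) < hh * U := mul_lt_mul_of_pos_left hcon h0
    have h5 : hh * U ≤ 65536 * U := mul_le_mul_of_nonneg_right h65 hU
    linarith
  have h2 := mul_le_mul_of_nonneg_left (K.ks.A i hi).2 hU
  have h3 := mul_le_mul_of_nonneg_left hd1.le hb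
  linarith

/-- the coefficient of the lower side of the priority row -/
def coX (cls : Fin 3 → Bool) (b : ℝ) (i : Fin 3) (d : Fin 3 → ℝ) : ℝ :=
  if cls i = true then 4096 * (∏ l, if l = i then 1 else ty d l)
    else (4096 - b * (256 * d i)) * (∏ l, if l = i then 1 else ty d l)

/-- **The row of the priority** in the scale `2 ^ 28`, `b (65536 - hh) ≥ 1048576`. -/
theorem kr_CD_int (K : KR W F G cls d c s h lab) {k : Fin 3} (hk : cls k = true) {hh b : ℝ}
    (hh1 : 65536 * h ≤ hh) (h65 : hh < 65536) (hb : 1048576 ≤ b * (65536 - hh)) {z : Fin 3 → Fin 3 → ℤ}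
    {y y' : Fin 3 → ℤ} (hz : ∀ i, lab (z i) = i.succ.castSucc) (hy : lab y = 0) (hy' : lab y' = 4) :
    0 ≤ ∑ i, (coC cls k i (ty d) * yv F i.succ (z i - y) - coX cls b i d * yv F i.succ (z i - y')) := by
  have h0 := kr_CD K hk (a := fun _ => 4096 / 4096) (m := fun _ => 256 * b / 4096)
    (fun i hi => by
      have := kr_c_lb K hi (hu := hh / 65536) (m := 256 * b / 4096) (by rw [le_div_iff₀ (by norm_num)]; linarith)
        (by rw [div_lt_one (by norm_num)]; exact h65) (by
          have e : 256 * b / 4096 * (1 - hh / 65536) = b * (65536 - hh) / 1048576 := by ring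
          rw [e, le_div_iff₀ (by norm_num)]
          linarith)
      have e : (4096 : ℝ) / 4096 = 1 := by norm_num
      rw [e]
      exact this) hz hy hy'
  have h1 := mul_nonneg (by norm_num : (0 : ℝ) ≤ 2 ^ 28) h0
  rw [Finset.mul_sum] at h1
  refine h1.trans (le_of_eq (Finset.sum_congr rfl fun i _ => ?_))
  rw [mul_sub, ← mul_assoc, ← mul_assoc, fC_int hk]
  congr 2
  unfold coX
  by_cases hi : cls i = true
  · rw [if_pos hi, gC_int_A hi]
  · rw [if_neg hi]
    exact gC_int_B (bne hi) (fun _ => 4096) (fun _ => b) d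

end

end Pool.Agent.Helper21.TK
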