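import Pool.Agent.Helper21.TK.Tab

/-!
# The width tags

A tag is a pair of sets `e`, `f` of vertices (`e = i + 4 t`, `4` = all): some admissible pair of vertices with the
top in `e` and the bottom in `f` has a large difference.
-/

set_option autoImplicit false

namespace Pool.Agent.Helper21.TK

open Pool.Agent.Helper80.TK

section

variable {W : ℝ} {F G : Matrix (Fin 3) (Fin 3) ℝ} {cls : Fin 3 → Bool} {d c s : Fin 3 → ℝ} {h : ℝ}
  {lab : (Fin 3 → ℤ) → Fin 5} {Y : Fin 4 → ℝ} {e f : ℕ}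

/-- the meaning of the width tag `e, f` -/
def HT (W : ℝ) (cls : Fin 3 → Bool) (d : Fin 3 → ℝ) (Y : Fin 4 → ℝ) (e f : ℕ) : Prop :=
  ∃ i j a b : Fin 4, VP W cls d Y i j a b ∧ mt e i a ∧ mt f j b

/-- two sets have a common vertex -/
def cmp (e f : ℕ) : Bool :=
  e == 4 || f == 4 || (e % 4 == f % 4 && (e / 4 == e % 4 || f / 4 == f % 4 || e / 4 == f / 4))

theorem cmp_of_mt {e f : ℕ} {i a : Fin 4} (h : mt e i a) (h' : mt f i a) : cmp e f = true := by
  unfold cmp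
  simp only [Bool.or_eq_true, Bool.and_eq_true, beq_iff_eq]
  rcases h with h | ⟨h1, h2⟩
  · exact Or.inl (Or.inl h)
  · rcases h' with h' | ⟨h3, h4⟩
    · exact Or.inl (Or.inr h')
    · refine Or.inr ⟨by rw [h1, h3], ?_⟩
      rcases h2 with h2 | h2
      · exact Or.inl (Or.inl (by rw [h1, h2]))
      · rcases h4 with h4 | h4
        · exact Or.inl (Or.inr (by rw [h3, h4]))
        · exact Or.inr (by rw [h2, h4])

/-- **The width node.** -/
theorem w_node (hk : KR W F G cls d c s h lab) (hW : 0 ≤ W) {u : Fin 3 → ℤ} (hu : u ≠ 0) {m : ℕ} (hm : m < 10) :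
    ∃ code ∈ (tab (cls 0) (cls 1) (cls 2)).getD m [],
      HT W cls d (fun j => yv G j u) (code % 16) (code / 16) := by
  obtain ⟨i, j, a, b, hv⟩ := hk.wt hW u hu
  obtain ⟨code, hc, h1, h2⟩ := tab_ok cls hm hv.1
  exact ⟨code, hc, i, j, a, b, hv, h1, h2⟩

/-- **The refinement node.** -/
theorem HT.v_node (hT : HT W cls d Y e f) {m : ℕ} (hm : m < 10) :
    ∃ code ∈ (tab (cls 0) (cls 1) (cls 2)).getD m [],
      (cmp e (code % 16) && cmp f (code / 16)) = true ∧ HT W cls d Y (code % 16) (code / 16) := by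
  obtain ⟨i, j, a, b, hv, h3, h4⟩ := hT
  obtain ⟨code, hc, h1, h2⟩ := tab_ok cls hm hv.1
  refine ⟨code, hc, ?_, i, j, a, b, hv, h1, h2⟩
  rw [Bool.and_eq_true]
  exact ⟨cmp_of_mt h3 h1, cmp_of_mt h4 h2⟩

/-- **The vertices of a tag.** -/
theorem HT.group (hT : HT W cls d Y e f) (he : e < 16) (hf : f < 16) :
    ∃ i j a b : Fin 4, VP W cls d Y i j a b ∧ (i.val + 4 * a.val) ∈ (vt (cls 0) (cls 1) (cls 2)).getD e [] ∧
      (j.val + 4 * b.val) ∈ (vt (cls 0) (cls 1) (cls 2)).getD f [] := by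
  obtain ⟨i, j, a, b, hv, h3, h4⟩ := hT
  obtain ⟨-, a1, a2, a3, a4, -⟩ := hv.1
  exact ⟨i, j, a, b, hv, vt_ok cls he a1 (fun h => (a2 h).1) h3, vt_ok cls hf a3 (fun h => (a4 h).1) h4⟩

/-- the value of the representing point of a set -/
noncomputable def vv (d : Fin 3 → ℝ) (Y : Fin 4 → ℝ) (e : ℕ) : ℝ :=
  (1 - dd d (Fin.ofNat 4 (e % 4))) * Y (Fin.ofNat 4 (e % 4)) + dd d (Fin.ofNat 4 (e % 4)) * Y (Fin.ofNat 4 (e / 4))

theorem ofNat_val (i : Fin 4) : Fin.ofNat 4 i.val = i := by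
  fin_cases i <;> rfl

theorem dd_nonneg (hd : ∀ i, 0 ≤ d i) (i : Fin 4) : 0 ≤ dd d i := by
  rcases Fin.eq_zero_or_eq_succ i with rfl | ⟨k, rfl⟩
  · exact le_of_eq rfl
  · rw [dd_succ]
    exact hd k

/-- **The width fact of a tag**, affine in every `d i`. -/
theorem HT.fact (hT : HT W cls d Y e f) (hd : ∀ i, 0 ≤ d i) (he : e ≠ 4) (hf : f ≠ 4) :
    4 * W < vv d Y e - vv d Y f := by
  obtain ⟨i, j, a, b, ⟨-, h1, h2, h3⟩, h4, h5⟩ := hT
  have k1 : (1 - dd d i) * Y i + dd d i * Y a ≤ vv d Y e := by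
    rcases h4 with h4 | ⟨g1, g2⟩
    · exact absurd h4 he
    · unfold vv
      rw [g1, ofNat_val]
      rcases g2 with g2 | g2
      · rw [g2, ofNat_val]
        have := mul_le_mul_of_nonneg_left h1 (dd_nonneg hd i)
        linarith
      · rw [g2, ofNat_val]
  have k2 : vv d Y f ≤ (1 - dd d j) * Y j + dd d j * Y b := by
    rcases h5 with h5 | ⟨g1, g2⟩
    · exact absurd h5 hf
    · unfold vv
      rw [g1, ofNat_val]
      rcases g2 with g2 | g2
      · rw [g2, ofNat_val]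
        have := mul_le_mul_of_nonneg_left h2 (dd_nonneg hd j)
        linarith
      · rw [g2, ofNat_val]
  linarith

end

end Pool.Agent.Helper21.TK
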