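import Pool.Agent.Helper80.TK.Vert

/-!
# Multi-affine facts on a box

A function of `d 0, d 1, d 2` which is affine in every variable is the average of its values at the corners of a
box, with product weights.
-/

set_option autoImplicit false

namespace Pool.Agent.Helper21.TK

open Pool.Agent.Helper80.TK

/-- affine in every variable -/
def MAff (F : (Fin 3 → ℝ) → ℝ) : Prop :=
  ∀ (d : Fin 3 → ℝ) (i : Fin 3) (x y t : ℝ),
    F (Function.update d i ((1 - t) * x + t * y)) =
      (1 - t) * F (Function.update d i x) + t * F (Function.update d i y)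

/-- the corner of a box -/
def cor (lo hi : Fin 3 → ℝ) (σ : Fin 3 → Bool) : Fin 3 → ℝ := fun i => if σ i = true then hi i else lo i

/-- the position in a box -/
noncomputable def pos (lo hi d : Fin 3 → ℝ) (i : Fin 3) : ℝ := (d i - lo i) / (hi i - lo i)

/-- the product weights -/
noncomputable def lam (lo hi d : Fin 3 → ℝ) (σ : Fin 3 → Bool) : ℝ :=
  ∏ i, if σ i = true then pos lo hi d i else 1 - pos lo hi d i

theorem pos_mem {lo hi d : Fin 3 → ℝ} (h1 : ∀ i, lo i ≤ d i) (h2 : ∀ i, d i ≤ hi i) (i : Fin 3) :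
    0 ≤ pos lo hi d i ∧ pos lo hi d i ≤ 1 := by
  unfold pos
  have a1 := h1 i
  have a2 := h2 i
  constructor
  · exact div_nonneg (by linarith) (by linarith)
  · exact div_le_one_of_le₀ (by linarith) (by linarith)

theorem pos_eq {lo hi d : Fin 3 → ℝ} (h1 : ∀ i, lo i ≤ d i) (h2 : ∀ i, d i ≤ hi i) (i : Fin 3) :
    (1 - pos lo hi d i) * lo i + pos lo hi d i * hi i = d i := by
  unfold pos
  have a1 := h1 i
  have a2 := h2 i
  by_cases h : hi i = lo i
  · rw [h, sub_self, div_zero]
    have : d i = lo i := le_antisymm (by rw [← h]; exact a2) a1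
    rw [this]
    ring
  · have : hi i - lo i ≠ 0 := sub_ne_zero.2 h
    field_simp
    ring

theorem lam_nonneg {lo hi d : Fin 3 → ℝ} (h1 : ∀ i, lo i ≤ d i) (h2 : ∀ i, d i ≤ hi i) (σ : Fin 3 → Bool) :
    0 ≤ lam lo hi d σ := by
  refine Finset.prod_nonneg fun i _ => ?_
  obtain ⟨a, b⟩ := pos_mem h1 h2 i
  split_ifs
  · exact a
  · linarith

theorem sum_bool3 (g : (Fin 3 → Bool) → ℝ) :
    ∑ σ, g σ = g ![false, false, false] + g ![false, false, true] + g ![false, true, false] + g ![false, true, true] +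
      (g ![true, false, false] + g ![true, false, true] + g ![true, true, false] + g ![true, true, true]) := by
  have h : (Finset.univ : Finset (Fin 3 → Bool)) = {![false, false, false], ![false, false, true],
      ![false, true, false], ![false, true, true], ![true, false, false], ![true, false, true], ![true, true, false],
      ![true, true, true]} := by decide
  rw [h, Finset.sum_insert (by decide), Finset.sum_insert (by decide), Finset.sum_insert (by decide),
    Finset.sum_insert (by decide), Finset.sum_insert (by decide), Finset.sum_insert (by decide),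
    Finset.sum_insert (by decide), Finset.sum_singleton]
  ring

theorem lam_sum (lo hi d : Fin 3 → ℝ) : ∑ σ, lam lo hi d σ = 1 := by
  rw [sum_bool3]
  simp only [lam, Fin.prod_univ_three, Matrix.cons_val_zero, Matrix.cons_val_one, Matrix.cons_val]
  simp only [Bool.false_eq_true, if_false, if_true]
  ring

/-- **The average over the corners.** -/
theorem MAff.avg {F : (Fin 3 → ℝ) → ℝ} (hF : MAff F) {lo hi d : Fin 3 → ℝ} (h1 : ∀ i, lo i ≤ d i)
    (h2 : ∀ i, d i ≤ hi i) : ∑ σ, lam lo hi d σ * F (cor lo hi σ) = F d := by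
  have e0 : ∀ v : Fin 3 → ℝ, v = ![v 0, v 1, v 2] := by
    intro v
    funext i
    fin_cases i <;> rfl
  have key : ∀ (a b c : ℝ) (i : Fin 3) (x y t : ℝ), F (Function.update ![a, b, c] i ((1 - t) * x + t * y)) =
      (1 - t) * F (Function.update ![a, b, c] i x) + t * F (Function.update ![a, b, c] i y) := fun a b c => hF _
  have u0 : ∀ a b c x : ℝ, Function.update ![a, b, c] 0 x = ![x, b, c] := by
    intro a b c x
    funext i
    fin_cases i <;> rfl
  have u1 : ∀ a b c x : ℝ, Function.update ![a, b, c] 1 x = ![a, x, c] := by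
    intro a b c x
    funext i
    fin_cases i <;> rfl
  have u2 : ∀ a b c x : ℝ, Function.update ![a, b, c] 2 x = ![a, b, x] := by
    intro a b c x
    funext i
    fin_cases i <;> rfl
  have k0 : ∀ b c x y t : ℝ, F ![(1 - t) * x + t * y, b, c] = (1 - t) * F ![x, b, c] + t * F ![y, b, c] := by
    intro b c x y t
    have := key 0 b c 0 x y t
    rwa [u0, u0, u0] at this
  have k1 : ∀ a c x y t : ℝ, F ![a, (1 - t) * x + t * y, c] = (1 - t) * F ![a, x, c] + t * F ![a, y, c] := by
    intro a c x y t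
    have := key a 0 c 1 x y t
    rwa [u1, u1, u1] at this
  have k2 : ∀ a b x y t : ℝ, F ![a, b, (1 - t) * x + t * y] = (1 - t) * F ![a, b, x] + t * F ![a, b, y] := by
    intro a b x y t
    have := key a b 0 2 x y t
    rwa [u2, u2, u2] at this
  conv_rhs => rw [e0 d, ← pos_eq h1 h2 0, ← pos_eq h1 h2 1, ← pos_eq h1 h2 2]
  rw [k0, k1, k1, k2, k2, k2, k2, sum_bool3]
  have c0 : ∀ s0 s1 s2 : Bool, cor lo hi ![s0, s1, s2] =
      ![if s0 = true then hi 0 else lo 0, if s1 = true then hi 1 else lo 1, if s2 = true then hi 2 else lo 2] := by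
    intro s0 s1 s2
    funext i
    fin_cases i <;> rfl
  simp only [c0, lam, Fin.prod_univ_three, Matrix.cons_val_zero, Matrix.cons_val_one, Matrix.cons_val]
  simp only [Bool.false_eq_true, if_false, if_true]
  ring

theorem MAff.const (a : ℝ) : MAff fun _ => a := by
  intro d i x y t
  ring

theorem MAff.coord (k : Fin 3) : MAff fun d => d k := by
  intro d i x y t
  by_cases h : k = i
  · subst h
    simp only [Function.update_self]
  · simp only [Function.update_of_ne h]
    ring

theorem MAff.add {F G : (Fin 3 → ℝ) → ℝ} (hF : MAff F) (hG : MAff G) : MAff fun d => F d + G d := by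
  intro d i x y t
  simp only [hF d i x y t, hG d i x y t]
  ring

theorem MAff.sub {F G : (Fin 3 → ℝ) → ℝ} (hF : MAff F) (hG : MAff G) : MAff fun d => F d - G d := by
  intro d i x y t
  simp only [hF d i x y t, hG d i x y t]
  ring

theorem MAff.smul {F : (Fin 3 → ℝ) → ℝ} (hF : MAff F) (a : ℝ) : MAff fun d => a * F d := by
  intro d i x y t
  simp only [hF d i x y t]
  ring

/-- `F` does not depend on the variable `i` -/
def Indep (F : (Fin 3 → ℝ) → ℝ) (i : Fin 3) : Prop := ∀ (d : Fin 3 → ℝ) (x : ℝ), F (Function.update d i x) = F d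

/-- a product of multi-affine functions of disjoint sets of variables -/
theorem MAff.mul {F G : (Fin 3 → ℝ) → ℝ} (hF : MAff F) (hG : MAff G) (h : ∀ i, Indep F i ∨ Indep G i) :
    MAff fun d => F d * G d := by
  intro d i x y t
  rcases h i with h | h
  · simp only [h d, hG d i x y t]
    ring
  · simp only [h d, hF d i x y t]
    ring

/-- the product over the class `b`, without `i` -/
def qf (cls : Fin 3 → Bool) (b : Bool) (i : Fin 3) (d : Fin 3 → ℝ) : ℝ :=
  ∏ l, if cls l = b ∧ l ≠ i then 1 - d l else 1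

/-- the product over the class `b` -/
def pf (cls : Fin 3 → Bool) (b : Bool) (d : Fin 3 → ℝ) : ℝ := ∏ l, if cls l = b then 1 - d l else 1

theorem prod_maff (p : Fin 3 → Prop) [DecidablePred p] : MAff fun d => ∏ l, if p l then 1 - d l else 1 := by
  intro d i x y t
  simp only [Fin.prod_univ_three]
  fin_cases i
  · simp only [Fin.zero_eta, Function.update_self, Function.update_of_ne (by decide : (1 : Fin 3) ≠ 0),
      Function.update_of_ne (by decide : (2 : Fin 3) ≠ 0)]
    split_ifs <;> ring
  · simp only [Fin.mk_one, Function.update_self, Function.update_of_ne (by decide : (0 : Fin 3) ≠ 1),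
      Function.update_of_ne (by decide : (2 : Fin 3) ≠ 1)]
    split_ifs <;> ring
  · simp only [Fin.reduceFinMk, Function.update_self, Function.update_of_ne (by decide : (0 : Fin 3) ≠ 2),
      Function.update_of_ne (by decide : (1 : Fin 3) ≠ 2)]
    split_ifs <;> ring

theorem prod_indep (p : Fin 3 → Prop) [DecidablePred p] {i : Fin 3} (h : ¬ p i) :
    Indep (fun d => ∏ l, if p l then 1 - d l else 1) i := by
  intro d x
  refine Finset.prod_congr rfl fun l _ => ?_
  by_cases hl : l = i
  · subst hl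
    rw [if_neg h, if_neg h]
  · rw [Function.update_of_ne hl]

theorem qf_maff (cls : Fin 3 → Bool) (b : Bool) (i : Fin 3) : MAff (qf cls b i) :=
  prod_maff fun l => cls l = b ∧ l ≠ i

theorem pf_maff (cls : Fin 3 → Bool) (b : Bool) : MAff (pf cls b) := prod_maff fun l => cls l = b

theorem qf_indep {cls : Fin 3 → Bool} {b : Bool} {i l : Fin 3} (h : ¬ (cls l = b ∧ l ≠ i)) :
    Indep (qf cls b i) l := prod_indep (fun l => cls l = b ∧ l ≠ i) h

theorem pf_indep {cls : Fin 3 → Bool} {b : Bool} {l : Fin 3} (h : ¬ cls l = b) : Indep (pf cls b) l :=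
  prod_indep (fun l => cls l = b) h

theorem pf_eq {cls : Fin 3 → Bool} {b : Bool} {i : Fin 3} (h : cls i = b) (d : Fin 3 → ℝ) :
    pf cls b d = (1 - d i) * qf cls b i d := by
  unfold pf qf
  rw [← Finset.mul_prod_erase Finset.univ _ (Finset.mem_univ i),
    ← Finset.mul_prod_erase Finset.univ (fun l => if cls l = b ∧ l ≠ i then 1 - d l else 1) (Finset.mem_univ i),
    if_pos h, if_neg (fun h' => h'.2 rfl), one_mul]
  congr 1
  refine Finset.prod_congr rfl fun l hl => ?_
  have h1 := Finset.ne_of_mem_erase hl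
  by_cases h2 : cls l = b
  · rw [if_pos h2, if_pos ⟨h2, h1⟩]
  · rw [if_neg h2, if_neg fun h' => h2 h'.1]

theorem qf_pos {cls : Fin 3 → Bool} {b : Bool} {i : Fin 3} {d : Fin 3 → ℝ} (h : ∀ i, d i < 1) : 0 < qf cls b i d := by
  refine Finset.prod_pos fun l _ => ?_
  split_ifs
  · linarith [h l]
  · exact zero_lt_one

theorem pf_pos {cls : Fin 3 → Bool} {b : Bool} {d : Fin 3 → ℝ} (h : ∀ i, d i < 1) : 0 < pf cls b d := by
  refine Finset.prod_pos fun l _ => ?_
  split_ifs
  · linarith [h l]
  · exact zero_lt_one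

/-- **The corner form of a fact.**  `f i d` and `R d` are multi-affine, `Y i ≥ 0`, the coefficients are rounded up and
the right side is rounded down at every corner. -/
theorem corner_form {ι : Type} [Fintype ι] {f : ι → (Fin 3 → ℝ) → ℝ} {R : (Fin 3 → ℝ) → ℝ} (hf : ∀ i, MAff (f i))
    (hR : MAff R) {Y : ι → ℝ} (hY : ∀ i, 0 ≤ Y i) {lo hi d : Fin 3 → ℝ} (h1 : ∀ i, lo i ≤ d i) (h2 : ∀ i, d i ≤ hi i)
    (h : R d ≤ ∑ i, f i d * Y i) {N : ℝ} (hN : 0 ≤ N) {cu : ι → (Fin 3 → Bool) → ℝ} {kk : (Fin 3 → Bool) → ℝ}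
    (hcu : ∀ i σ, N * f i (cor lo hi σ) ≤ cu i σ) (hkk : ∀ σ, kk σ ≤ N * R (cor lo hi σ)) :
    ∑ σ, lam lo hi d σ * kk σ ≤ ∑ σ, lam lo hi d σ * ∑ i, cu i σ * Y i := by
  have hl := lam_nonneg h1 h2
  have a1 : ∑ σ, lam lo hi d σ * kk σ ≤ N * R d := by
    rw [← hR.avg h1 h2, Finset.mul_sum]
    refine Finset.sum_le_sum fun σ _ => ?_
    have := mul_le_mul_of_nonneg_left (hkk σ) (hl σ)
    linarith
  have a2 : N * ∑ i, f i d * Y i ≤ ∑ σ, lam lo hi d σ * ∑ i, cu i σ * Y i := by
    have e1 : N * ∑ i, f i d * Y i = ∑ σ, lam lo hi d σ * ∑ i, (N * f i (cor lo hi σ)) * Y i := by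
      simp only [Finset.mul_sum]
      rw [Finset.sum_comm]
      refine Finset.sum_congr rfl fun i _ => ?_
      rw [← (hf i).avg h1 h2, Finset.sum_mul, Finset.mul_sum]
      exact Finset.sum_congr rfl fun σ _ => by ring
    rw [e1]
    refine Finset.sum_le_sum fun σ _ => mul_le_mul_of_nonneg_left ?_ (hl σ)
    exact Finset.sum_le_sum fun i _ => mul_le_mul_of_nonneg_right (hcu i σ) (hY i)
  have a3 := mul_le_mul_of_nonneg_left h hN
  linarith

end Pool.Agent.Helper21.TK
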