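import Pool.Agent.Helper21.TK.Corner

/-!
# The facts of the wall state as multi-affine facts

`k` is a facet of the class `A`; `hu` is an upper bound of `h`.
-/

set_option autoImplicit false

namespace Pool.Agent.Helper21.TK

open Pool.Agent.Helper80.TK

section

variable {W : ℝ} {F G : Matrix (Fin 3) (Fin 3) ℝ} {cls : Fin 3 → Bool} {d c s : Fin 3 → ℝ} {h : ℝ}
  {lab : (Fin 3 → ℤ) → Fin 5}

theorem kr_c_eq (K : KR W F G cls d c s h lab) {j : Fin 3} (hj : cls j = false) :
    (1 - h) * (c j * (1 - d j)) = 1 - d j - h := by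
  obtain ⟨h1, h2⟩ := K.ks.B j hj
  have h3 := K.lin j
  have : ((1 - h) * c j + h * s j) * (1 - d j) = 1 * (1 - d j) := by rw [h3]
  have e : ((1 - h) * c j + h * s j) * (1 - d j) = (1 - h) * (c j * (1 - d j)) + h * (s j * (1 - d j)) := by ring
  rw [e, h1] at this
  linarith

theorem kr_s_eq (K : KR W F G cls d c s h lab) {i : Fin 3} (hi : cls i = true) :
    h * (s i * (1 - d i)) = h - d i := by
  obtain ⟨h1, h2⟩ := K.ks.A i hi
  have h3 := K.lin i
  have : ((1 - h) * c i + h * s i) * (1 - d i) = 1 * (1 - d i) := by rw [h3]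
  have e : ((1 - h) * c i + h * s i) * (1 - d i) = (1 - h) * (c i * (1 - d i)) + h * (s i * (1 - d i)) := by ring
  rw [e, h1] at this
  linarith

/-- the coefficient of the other class in the chain with `C` -/
theorem kr_c_ub (K : KR W F G cls d c s h lab) {j k : Fin 3} (hj : cls j = false) (hk : cls k = true) :
    c j * ((1 - d j) * (1 - d k)) ≤ 1 - d j - d k := by
  have h2 := (K.ks.B j hj).2
  have h4 := K.ks.dA k hk
  have h5 := K.ks.h1
  have h6 := K.ks.d0 j
  have h7 := K.ks.d1 k
  have h8 := kr_c_eq K hj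
  rcases eq_or_lt_of_le h5 with e | e
  · rw [e] at h8
    have h9 : d j = 0 := by linarith
    rw [h9]
    have := mul_le_mul_of_nonneg_right h2 (by linarith : 0 ≤ 1 - d k)
    linarith
  · have h9 : 0 < 1 - h := by linarith
    refine le_of_mul_le_mul_left ?_ h9
    have h10 : (1 - h) * (c j * ((1 - d j) * (1 - d k))) = (1 - d j - h) * (1 - d k) := by
      rw [← h8]
      ring
    rw [h10]
    have h11 := mul_nonneg (sub_nonneg.2 h4) h6
    nlinarith

/-- the lower bound of the coefficient of the other class -/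
theorem kr_c_lb (K : KR W F G cls d c s h lab) {j : Fin 3} (hj : cls j = false) {hu m : ℝ} (hh : h ≤ hu)
    (h1 : hu < 1) (hm : 1 ≤ m * (1 - hu)) : 1 - m * d j ≤ c j * (1 - d j) := by
  have h6 := K.ks.d0 j
  have h8 := kr_c_eq K hj
  have h10 : 0 < 1 - h := by linarith
  have hm0 : 0 ≤ m := by
    by_contra hcon
    push Not at hcon
    have := mul_neg_of_neg_of_pos hcon (by linarith : 0 < 1 - hu)
    linarith
  refine le_of_mul_le_mul_left ?_ h10
  rw [h8]
  have h11 : 1 ≤ m * (1 - h) := by
    have := mul_le_mul_of_nonneg_left (by linarith : 1 - hu ≤ 1 - h) hm0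
    linarith
  have h12 := mul_nonneg (by linarith : 0 ≤ m * (1 - h) - 1) h6
  linarith

/-- the coefficient of the class `A` in the chain with `D` -/
theorem kr_s_ub (K : KR W F G cls d c s h lab) {i : Fin 3} (hi : cls i = true) {hu : ℝ} (hh : h ≤ hu) :
    s i * ((1 - d i) * hu) ≤ hu - d i := by
  have h2 := (K.ks.A i hi).2
  have h4 := K.ks.dA i hi
  have h5 := K.ks.h0
  have h6 := K.ks.d0 i
  have h8 := kr_s_eq K hi
  rcases eq_or_lt_of_le h5 with e | e
  · rw [← e] at h4 hh
    have h9 : d i = 0 := by linarith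
    rw [h9]
    have := mul_le_mul_of_nonneg_right h2 hh
    linarith
  · refine le_of_mul_le_mul_left ?_ e
    have h10 : h * (s i * ((1 - d i) * hu)) = (h - d i) * hu := by
      rw [← h8]
      ring
    rw [h10]
    have h11 := mul_nonneg (sub_nonneg.2 hh) h6
    nlinarith

/-! ### chain with `C` -/

/-- the coefficients of the chain with `C`, version `k` -/
def fC (cls : Fin 3 → Bool) (k i : Fin 3) (d : Fin 3 → ℝ) : ℝ :=
  if cls i = true then qf cls true i d * pf cls false d else (1 - d i - d k) * (qf cls true k d * qf cls false i d)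

/-- the common factor -/
def RC (cls : Fin 3 → Bool) (d : Fin 3 → ℝ) : ℝ := pf cls true d * pf cls false d

theorem bne {x : Bool} (h : ¬ x = true) : x = false := Bool.eq_false_of_not_eq_true h

theorem RC_maff (cls : Fin 3 → Bool) : MAff (RC cls) := by
  refine (pf_maff cls true).mul (pf_maff cls false) fun l => ?_
  by_cases hl : cls l = true
  · exact Or.inr (pf_indep (by rw [hl]; decide))
  · exact Or.inl (pf_indep hl)

theorem fC_maff {cls : Fin 3 → Bool} {k : Fin 3} (hk : cls k = true) (i : Fin 3) : MAff (fC cls k i) := by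
  unfold fC
  by_cases hi : cls i = true
  · simp only [hi, if_true]
    refine (qf_maff cls true i).mul (pf_maff cls false) fun l => ?_
    by_cases hl : cls l = true
    · exact Or.inr (pf_indep (by rw [hl]; decide))
    · exact Or.inl (qf_indep fun h => hl h.1)
  · have hi' := bne hi
    simp only [hi', Bool.false_eq_true, if_false]
    have hki : k ≠ i := by
      rintro rfl
      exact hi hk
    have hl0 : MAff fun d : Fin 3 → ℝ => 1 - d i - d k := ((MAff.const 1).sub (MAff.coord i)).sub (MAff.coord k)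
    have hq : MAff fun d => qf cls true k d * qf cls false i d := by
      refine (qf_maff cls true k).mul (qf_maff cls false i) fun l => ?_
      by_cases hl : cls l = true
      · exact Or.inr (qf_indep fun h => by rw [hl] at h; exact absurd h.1 (by decide))
      · exact Or.inl (qf_indep fun h => hl h.1)
    refine hl0.mul hq fun l => ?_
    by_cases e1 : l = i
    · right
      intro d x
      have a1 : Indep (qf cls true k) l := qf_indep fun h => hi (by rw [← e1]; exact h.1)
      have a2 : Indep (qf cls false i) l := qf_indep fun h => h.2 e1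
      simp only [a1 d x, a2 d x]
    · by_cases e2 : l = k
      · right
        intro d x
        have a1 : Indep (qf cls true k) l := qf_indep fun h => h.2 e2
        have a2 : Indep (qf cls false i) l := qf_indep fun h => by
          rw [e2, hk] at h
          exact absurd h.1 (by decide)
        simp only [a1 d x, a2 d x]
      · left
        intro d x
        show 1 - Function.update d l x i - Function.update d l x k = 1 - d i - d k
        rw [Function.update_of_ne (Ne.symm e1), Function.update_of_ne (Ne.symm e2)]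

/-- the comparison of the coefficient of `c` -/
theorem kr_c_le_fC (K : KR W F G cls d c s h lab) {k : Fin 3} (hk : cls k = true) (i : Fin 3) :
    RC cls d * c i ≤ fC cls k i d := by
  unfold fC RC
  by_cases hi : cls i = true
  · rw [if_pos hi, pf_eq hi]
    have h1 := (K.ks.A i hi).1
    refine le_of_eq ?_
    have e : (1 - d i) * qf cls true i d * pf cls false d * c i =
        (c i * (1 - d i)) * (qf cls true i d * pf cls false d) := by ring
    rw [e, h1, one_mul]
  · have hi' := bne hi
    rw [if_neg hi, pf_eq hk, pf_eq hi']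
    have h1 := kr_c_ub K hi' hk
    have h2 := mul_pos (qf_pos (cls := cls) (b := true) (i := k) K.ks.d1) (qf_pos (cls := cls) (b := false) (i := i) K.ks.d1)
    have h3 := mul_le_mul_of_nonneg_right h1 h2.le
    have e : (1 - d k) * qf cls true k d * ((1 - d i) * qf cls false i d) * c i =
        c i * ((1 - d i) * (1 - d k)) * (qf cls true k d * qf cls false i d) := by ring
    rw [e]
    exact h3

theorem RC_pos {d : Fin 3 → ℝ} (cls : Fin 3 → Bool) (h : ∀ i, d i < 1) : 0 < RC cls d := mul_pos (pf_pos h) (pf_pos h)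

/-- **The chain with `C`, version `k`.** -/
theorem kr_chC (K : KR W F G cls d c s h lab) {k : Fin 3} (hk : cls k = true) {z : Fin 3 → Fin 3 → ℤ}
    {y : Fin 3 → ℤ} (hz : ∀ i, lab (z i) = i.succ.castSucc) (hy : lab y = 0) :
    RC cls d ≤ ∑ i, fC cls k i d * yv F i.succ (z i - y) := by
  have hY : ∀ i : Fin 3, 0 ≤ yv F i.succ (z i - y) := fun i => K.ks.row i (z i) y (hz i) (Or.inl hy)
  have h3 := mul_le_mul_of_nonneg_left (K.ks.chC z y hz hy) (RC_pos cls K.ks.d1).le
  rw [mul_one, Finset.mul_sum] at h3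
  refine h3.trans (Finset.sum_le_sum fun i _ => ?_)
  rw [← mul_assoc]
  exact mul_le_mul_of_nonneg_right (kr_c_le_fC K hk i) (hY i)

/-- **The chain with `C`, corner form.** -/
theorem kr_chC_corner (K : KR W F G cls d c s h lab) {k : Fin 3} (hk : cls k = true) {z : Fin 3 → Fin 3 → ℤ}
    {y : Fin 3 → ℤ} (hz : ∀ i, lab (z i) = i.succ.castSucc) (hy : lab y = 0) {lo hi : Fin 3 → ℝ}
    (h1 : ∀ i, lo i ≤ d i) (h2 : ∀ i, d i ≤ hi i) {N : ℝ} (hN : 0 ≤ N) {cu : Fin 3 → (Fin 3 → Bool) → ℝ}
    {kk : (Fin 3 → Bool) → ℝ} (hcu : ∀ i σ, N * fC cls k i (cor lo hi σ) ≤ cu i σ)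
    (hkk : ∀ σ, kk σ ≤ N * RC cls (cor lo hi σ)) :
    ∑ σ, lam lo hi d σ * kk σ ≤ ∑ σ, lam lo hi d σ * ∑ i, cu i σ * yv F i.succ (z i - y) := by
  have hY : ∀ i : Fin 3, 0 ≤ yv F i.succ (z i - y) := fun i => K.ks.row i (z i) y (hz i) (Or.inl hy)
  exact corner_form (f := fun i => fC cls k i) (R := RC cls) (fC_maff hk) (RC_maff cls) hY h1 h2 (kr_chC K hk hz hy) hN
    hcu hkk

/-! ### chain with `D` -/

/-- the coefficients of the chain with `D`: `a i - b i * d i` is an upper bound of `s i` for `i` in `A` -/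
def fD (cls : Fin 3 → Bool) (a b : Fin 3 → ℝ) (i : Fin 3) (d : Fin 3 → ℝ) : ℝ :=
  if cls i = true then pf cls false d * (a i - b i * d i) else qf cls false i d

theorem fD_maff (cls : Fin 3 → Bool) (a b : Fin 3 → ℝ) (i : Fin 3) : MAff (fD cls a b i) := by
  unfold fD
  by_cases hi : cls i = true
  · simp only [hi, if_true]
    refine (pf_maff cls false).mul ((MAff.const (a i)).sub ((MAff.coord i).smul (b i))) fun l => ?_
    by_cases hl : cls l = true
    · exact Or.inl (pf_indep (by rw [hl]; decide))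
    · right
      intro d x
      have : i ≠ l := by
        rintro rfl
        exact hl hi
      simp only [Function.update_of_ne this]
  · simp only [bne hi, Bool.false_eq_true, if_false]
    exact qf_maff cls false i

/-- **The chain with `D`**, for any linear upper bounds of `s i`, `i` in `A`. -/
theorem kr_chD (K : KR W F G cls d c s h lab) {a b : Fin 3 → ℝ}
    (hab : ∀ i, cls i = true → s i ≤ a i - b i * d i) {z : Fin 3 → Fin 3 → ℤ}
    {y : Fin 3 → ℤ} (hz : ∀ i, lab (z i) = i.succ.castSucc) (hy : lab y = 4) :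
    pf cls false d ≤ ∑ i, fD cls a b i d * yv F i.succ (z i - y) := by
  have hY : ∀ i : Fin 3, 0 ≤ yv F i.succ (z i - y) := fun i => K.ks.row i (z i) y (hz i) (Or.inr hy)
  have h3 := mul_le_mul_of_nonneg_left (K.ks.chD z y hz hy) (pf_pos (cls := cls) (b := false) K.ks.d1).le
  rw [mul_one, Finset.mul_sum] at h3
  refine h3.trans (Finset.sum_le_sum fun i _ => ?_)
  rw [← mul_assoc]
  refine mul_le_mul_of_nonneg_right ?_ (hY i)
  unfold fD
  by_cases hi : cls i = true
  · rw [if_pos hi]
    exact mul_le_mul_of_nonneg_left (hab i hi) (pf_pos K.ks.d1).le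
  · rw [if_neg hi, pf_eq (bne hi)]
    have h4 := (K.ks.B i (bne hi)).1
    refine le_of_eq ?_
    have e : (1 - d i) * qf cls false i d * s i = (s i * (1 - d i)) * qf cls false i d := by ring
    rw [e, h4, one_mul]

/-- **The chain with `D`, corner form.** -/
theorem kr_chD_corner (K : KR W F G cls d c s h lab) {a b : Fin 3 → ℝ}
    (hab : ∀ i, cls i = true → s i ≤ a i - b i * d i) {z : Fin 3 → Fin 3 → ℤ}
    {y : Fin 3 → ℤ} (hz : ∀ i, lab (z i) = i.succ.castSucc) (hy : lab y = 4) {lo hi : Fin 3 → ℝ}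
    (h1 : ∀ i, lo i ≤ d i) (h2 : ∀ i, d i ≤ hi i) {N : ℝ} (hN : 0 ≤ N) {cu : Fin 3 → (Fin 3 → Bool) → ℝ}
    {kk : (Fin 3 → Bool) → ℝ} (hcu : ∀ i σ, N * fD cls a b i (cor lo hi σ) ≤ cu i σ)
    (hkk : ∀ σ, kk σ ≤ N * pf cls false (cor lo hi σ)) :
    ∑ σ, lam lo hi d σ * kk σ ≤ ∑ σ, lam lo hi d σ * ∑ i, cu i σ * yv F i.succ (z i - y) := by
  have hY : ∀ i : Fin 3, 0 ≤ yv F i.succ (z i - y) := fun i => K.ks.row i (z i) y (hz i) (Or.inr hy)
  exact corner_form (f := fun i => fD cls a b i) (R := pf cls false) (fD_maff cls a b) (pf_maff cls false) hY h1 h2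
    (kr_chD K hab hz hy) hN hcu hkk

/-- a linear upper bound of `s i` from the upper end of `h` -/
theorem kr_s_le (K : KR W F G cls d c s h lab) {i : Fin 3} (hi : cls i = true) {hu a b : ℝ} (hh : h ≤ hu)
    (h0 : 0 < hu) (hab : hu - d i ≤ (a - b * d i) * ((1 - d i) * hu)) : s i ≤ a - b * d i := by
  have h1 := kr_s_ub K hi hh
  have h2 : 0 < (1 - d i) * hu := mul_pos (by linarith [K.ks.d1 i]) h0
  exact le_of_mul_le_mul_right (h1.trans hab) h2

/-- the tangency test: `a - b t` with `t = 256 d i` is above `U * s i` -/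
theorem kr_s_tan (K : KR W F G cls d c s h lab) {i : Fin 3} (hi : cls i = true) {hh a b U : ℝ}
    (hh1 : 65536 * h ≤ hh) (h0 : 0 < hh) (h65 : hh ≤ 65536) (hb : 0 ≤ b) (hU : 0 ≤ U)
    (ht : (65536 * U + 256 * hh * b - hh * a) ^ 2 ≤ 1024 * b * (65536 - hh) * hh * U) :
    U * s i ≤ a - b * (256 * d i) := by
  have hd1 := K.ks.d1 i
  have hd0 := K.ks.d0 i
  rcases eq_or_lt_of_le hb with e | e
  · rw [← e] at ht ⊢
    have h1 : (65536 * U - hh * a) ^ 2 ≤ 0 := by
      have e1 : (65536 * U + 256 * hh * 0 - hh * a) ^ 2 = (65536 * U - hh * a) ^ 2 := by ring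
      have e2 : 1024 * 0 * (65536 - hh) * hh * U = 0 := by ring
      rw [e1, e2] at ht
      exact ht
    have h2 : 65536 * U - hh * a = 0 := pow_eq_zero_iff (two_ne_zero) |>.1 (le_antisymm h1 (sq_nonneg _))
    have h3 : U ≤ a := by
      by_contra hcon
      push Not at hcon
      have h4 : hh * a < hh * U := mul_lt_mul_of_pos_left hcon h0
      have h5 : hh * U ≤ 65536 * U := mul_le_mul_of_nonneg_right h65 hU
      linarith
    have h4 := mul_le_mul_of_nonneg_left (K.ks.A i hi).2 hU
    linarith
  · have hk := kr_s_ub K hi (hu := hh / 65536) (by rw [le_div_iff₀ (by norm_num)]; linarith)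
    have h2 : 0 < (256 - 256 * d i) * hh := mul_pos (by linarith) h0
    refine le_of_mul_le_mul_right ?_ h2
    have h3 : U * s i * ((256 - 256 * d i) * hh) ≤ U * (256 * hh - 65536 * (256 * d i)) := by
      have h4 := mul_le_mul_of_nonneg_left hk (mul_nonneg hU (by norm_num : (0 : ℝ) ≤ 256 * 65536))
      have e1 : U * (256 * 65536) * (s i * ((1 - d i) * (hh / 65536))) = U * s i * ((256 - 256 * d i) * hh) := by ring
      have e2 : U * (256 * 65536) * (hh / 65536 - d i) = U * (256 * hh - 65536 * (256 * d i)) := by ring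
      rw [e1, e2] at h4
      exact h4
    refine h3.trans ?_
    have h5 : 0 < 4 * b * hh := by positivity
    refine sub_nonneg.1 ?_
    refine (mul_nonneg_iff_of_pos_left h5).1 ?_
    have e3 : 4 * b * hh * ((a - b * (256 * d i)) * ((256 - 256 * d i) * hh) -
        U * (256 * hh - 65536 * (256 * d i))) =
        (2 * b * hh * (256 * d i) - (hh * a + 256 * hh * b - 65536 * U)) ^ 2 +
          (1024 * b * (65536 - hh) * hh * U - (65536 * U + 256 * hh * b - hh * a) ^ 2) := by ring
    rw [e3]
    have := sq_nonneg (2 * b * hh * (256 * d i) - (hh * a + 256 * hh * b - 65536 * U))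
    linarith

/-! ### the row of the priority -/

/-- the lower bound of the coefficient of `c` -/
def gC (cls : Fin 3 → Bool) (a m : Fin 3 → ℝ) (i : Fin 3) (d : Fin 3 → ℝ) : ℝ :=
  if cls i = true then qf cls true i d * pf cls false d else (a i - m i * d i) * (pf cls true d * qf cls false i d)

theorem gC_maff (cls : Fin 3 → Bool) (a m : Fin 3 → ℝ) (i : Fin 3) : MAff (gC cls a m i) := by
  unfold gC
  by_cases hi : cls i = true
  · simp only [hi, if_true]
    refine (qf_maff cls true i).mul (pf_maff cls false) fun l => ?_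
    by_cases hl : cls l = true
    · exact Or.inr (pf_indep (by rw [hl]; decide))
    · exact Or.inl (qf_indep fun h => hl h.1)
  · simp only [bne hi, Bool.false_eq_true, if_false]
    have hq : MAff fun d => pf cls true d * qf cls false i d := by
      refine (pf_maff cls true).mul (qf_maff cls false i) fun l => ?_
      by_cases hl : cls l = true
      · exact Or.inr (qf_indep fun h => by rw [hl] at h; exact absurd h.1 (by decide))
      · exact Or.inl (pf_indep hl)
    refine ((MAff.const (a i)).sub ((MAff.coord i).smul (m i))).mul hq fun l => ?_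
    by_cases e1 : l = i
    · right
      intro d x
      have a1 : Indep (pf cls true) l := pf_indep fun h => hi (by rw [← e1]; exact h)
      have a2 : Indep (qf cls false i) l := qf_indep fun h => h.2 e1
      simp only [a1 d x, a2 d x]
    · left
      intro d x
      simp only [Function.update_of_ne (Ne.symm e1)]

theorem kr_gC_le (K : KR W F G cls d c s h lab) {a m : Fin 3 → ℝ}
    (hm : ∀ i, cls i = false → a i - m i * d i ≤ c i * (1 - d i)) (i : Fin 3) : gC cls a m i d ≤ RC cls d * c i := by
  unfold gC RC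
  by_cases hi : cls i = true
  · rw [if_pos hi, pf_eq hi]
    have h1 := (K.ks.A i hi).1
    refine ge_of_eq ?_
    have e : (1 - d i) * qf cls true i d * pf cls false d * c i =
        (c i * (1 - d i)) * (qf cls true i d * pf cls false d) := by ring
    rw [e, h1, one_mul]
  · have hi' := bne hi
    rw [if_neg hi, pf_eq hi']
    have h1 := hm i hi'
    have h2 := mul_pos (pf_pos (cls := cls) (b := true) K.ks.d1) (qf_pos (cls := cls) (b := false) (i := i) K.ks.d1)
    have h3 := mul_le_mul_of_nonneg_right h1 h2.le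
    have e : pf cls true d * ((1 - d i) * qf cls false i d) * c i =
        c i * (1 - d i) * (pf cls true d * qf cls false i d) := by ring
    rw [e]
    exact h3

/-- **The row of the priority, version `k`**, for any linear lower bounds of `c i * (1 - d i)`, `i` in `B`. -/
theorem kr_CD (K : KR W F G cls d c s h lab) {k : Fin 3} (hk : cls k = true) {a m : Fin 3 → ℝ}
    (hm : ∀ i, cls i = false → a i - m i * d i ≤ c i * (1 - d i)) {z : Fin 3 → Fin 3 → ℤ}
    {y y' : Fin 3 → ℤ} (hz : ∀ i, lab (z i) = i.succ.castSucc) (hy : lab y = 0) (hy' : lab y' = 4) :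
    0 ≤ ∑ i, (fC cls k i d * yv F i.succ (z i - y) - gC cls a m i d * yv F i.succ (z i - y')) := by
  have hY : ∀ i : Fin 3, 0 ≤ yv F i.succ (z i - y) := fun i => K.ks.row i (z i) y (hz i) (Or.inl hy)
  have hY' : ∀ i : Fin 3, 0 ≤ yv F i.succ (z i - y') := fun i => K.ks.row i (z i) y' (hz i) (Or.inr hy')
  have h4 := mul_nonneg (RC_pos cls K.ks.d1).le (K.ks.CD z y y' hz hy hy')
  rw [Finset.mul_sum] at h4
  refine h4.trans (Finset.sum_le_sum fun i _ => ?_)
  have h5 := mul_le_mul_of_nonneg_right (kr_c_le_fC K hk i) (hY i)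
  have h6 := mul_le_mul_of_nonneg_right (kr_gC_le K hm i) (hY' i)
  have e : RC cls d * (c i * (yv F i.succ (z i - y) - yv F i.succ (z i - y'))) =
      RC cls d * c i * yv F i.succ (z i - y) - RC cls d * c i * yv F i.succ (z i - y') := by ring
  rw [e]
  linarith

/-- **The row of the priority, corner form.**  `cu` rounds up the coefficients at `y` (label `0`), `cl` rounds down
those at `y'` (label `4`). -/
theorem kr_CD_corner (K : KR W F G cls d c s h lab) {k : Fin 3} (hk : cls k = true) {a m : Fin 3 → ℝ}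
    (hm : ∀ i, cls i = false → a i - m i * d i ≤ c i * (1 - d i)) {z : Fin 3 → Fin 3 → ℤ}
    {y y' : Fin 3 → ℤ} (hz : ∀ i, lab (z i) = i.succ.castSucc) (hy : lab y = 0) (hy' : lab y' = 4)
    {lo hi : Fin 3 → ℝ} (h1 : ∀ i, lo i ≤ d i) (h2 : ∀ i, d i ≤ hi i) {N : ℝ} (hN : 0 ≤ N)
    {cu cl : Fin 3 → (Fin 3 → Bool) → ℝ} (hcu : ∀ i σ, N * fC cls k i (cor lo hi σ) ≤ cu i σ)
    (hcl : ∀ i σ, cl i σ ≤ N * gC cls a m i (cor lo hi σ)) :
    0 ≤ ∑ σ, lam lo hi d σ * ∑ i, (cu i σ * yv F i.succ (z i - y) - cl i σ * yv F i.succ (z i - y')) := by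
  have hY : ∀ i : Fin 3, 0 ≤ yv F i.succ (z i - y) := fun i => K.ks.row i (z i) y (hz i) (Or.inl hy)
  have hY' : ∀ i : Fin 3, 0 ≤ yv F i.succ (z i - y') := fun i => K.ks.row i (z i) y' (hz i) (Or.inr hy')
  have h3 := corner_form (ι := Fin 3 ⊕ Fin 3)
    (f := Sum.elim (fun i => fC cls k i) (fun i d => (-1) * gC cls a m i d)) (R := fun _ => 0)
    (by
      rintro (i | i)
      · exact fC_maff hk i
      · exact (gC_maff cls a m i).smul (-1))
    (MAff.const 0)
    (Y := Sum.elim (fun i => yv F i.succ (z i - y)) (fun i => yv F i.succ (z i - y')))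
    (by
      rintro (i | i)
      · exact hY i
      · exact hY' i) h1 h2 (by
      rw [Fintype.sum_sum_type]
      simp only [Sum.elim_inl, Sum.elim_inr]
      have h4 := mul_nonneg (RC_pos cls K.ks.d1).le (K.ks.CD z y y' hz hy hy')
      rw [← Finset.sum_add_distrib]
      rw [Finset.mul_sum] at h4
      refine h4.trans (Finset.sum_le_sum fun i _ => ?_)
      have h5 := mul_le_mul_of_nonneg_right (kr_c_le_fC K hk i) (hY i)
      have h6 := mul_le_mul_of_nonneg_right (kr_gC_le K hm i) (hY' i)
      have e : RC cls d * (c i * (yv F i.succ (z i - y) - yv F i.succ (z i - y'))) =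
          RC cls d * c i * yv F i.succ (z i - y) - RC cls d * c i * yv F i.succ (z i - y') := by ring
      rw [e]
      linarith) hN (cu := Sum.elim cu fun i σ => - cl i σ) (kk := fun _ => 0)
    (by
      rintro (i | i) σ
      · exact hcu i σ
      · have := hcl i σ
        simp only [Sum.elim_inr]
        linarith)
    (fun σ => by simp)
  rw [Finset.sum_eq_zero fun σ _ => mul_zero _] at h3
  refine h3.trans (le_of_eq (Finset.sum_congr rfl fun σ _ => ?_))
  rw [Fintype.sum_sum_type, ← Finset.sum_add_distrib]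
  congr 1
  refine Finset.sum_congr rfl fun i _ => ?_
  simp only [Sum.elim_inl, Sum.elim_inr]
  ring

/-! ### the width -/

theorem dd_maff (i : Fin 4) : MAff fun d => Helper80.TK.dd d i := by
  rcases Fin.eq_zero_or_eq_succ i with e | ⟨l, e⟩
  · subst e
    exact MAff.const 0
  · subst e
    have : (fun d : Fin 3 → ℝ => Helper80.TK.dd d l.succ) = fun d => d l := by
      funext d
      exact dd_succ d l
    rw [this]
    exact MAff.coord l

/-- **The width of a pair of vertices, corner form.** -/
theorem vp_corner {Y : Fin 4 → ℝ} {i j a b : Fin 4} (h : VP W cls d Y i j a b) {lo hi : Fin 3 → ℝ}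
    (h1 : ∀ i, lo i ≤ d i) (h2 : ∀ i, d i ≤ hi i) :
    4 * W < ∑ σ, lam lo hi d σ * (((1 - Helper80.TK.dd (cor lo hi σ) i) * Y i + Helper80.TK.dd (cor lo hi σ) i * Y a) -
      ((1 - Helper80.TK.dd (cor lo hi σ) j) * Y j + Helper80.TK.dd (cor lo hi σ) j * Y b)) := by
  have hM : MAff fun d => ((1 - Helper80.TK.dd d i) * Y i + Helper80.TK.dd d i * Y a) -
      ((1 - Helper80.TK.dd d j) * Y j + Helper80.TK.dd d j * Y b) := by
    intro e l x y t
    have a1 := dd_maff i e l x y t
    have a2 := dd_maff j e l x y t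
    simp only [a1, a2]
    ring
  rw [hM.avg h1 h2]
  exact h.2.2.2

end

end Pool.Agent.Helper21.TK
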