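import Pool.Agent.Helper21.TK.Poly

/-!
# The priority row without the terms of the other class
-/

set_option autoImplicit false

namespace Pool.Agent.Helper21.TK

open Pool.Agent.Helper80.TK

section

variable {W : ℝ} {F G : Matrix (Fin 3) (Fin 3) ℝ} {cls : Fin 3 → Bool} {d c s : Fin 3 → ℝ} {h : ℝ}
  {lab : (Fin 3 → ℤ) → Fin 5}

/-- the coefficient of the lower side of the priority row, the class `B` dropped -/
def coX0 (cls : Fin 3 → Bool) (i : Fin 3) (d : Fin 3 → ℝ) : ℝ :=
  if cls i = true then 4096 * (∏ l, if l = i then 1 else ty d l) else 0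

/-- **The row of the priority** in the scale `2 ^ 28`, without the terms of the class `B`. -/
theorem kr_CD_int0 (K : KR W F G cls d c s h lab) {k : Fin 3} (hk : cls k = true) {z : Fin 3 → Fin 3 → ℤ}
    {y y' : Fin 3 → ℤ} (hz : ∀ i, lab (z i) = i.succ.castSucc) (hy : lab y = 0) (hy' : lab y' = 4) :
    0 ≤ ∑ i, (coC cls k i (ty d) * yv F i.succ (z i - y) - coX0 cls i d * yv F i.succ (z i - y')) := by
  have h0 := kr_CD K hk (a := fun _ => 0) (m := fun _ => 0)
    (fun i hi => by
      have := mul_nonneg (K.ks.c0 i) (by linarith [K.ks.d1 i] : 0 ≤ 1 - d i)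
      simpa using this) hz hy hy'
  have h1 := mul_nonneg (by norm_num : (0 : ℝ) ≤ 2 ^ 28) h0
  rw [Finset.mul_sum] at h1
  refine h1.trans (le_of_eq (Finset.sum_congr rfl fun i _ => ?_))
  rw [mul_sub, ← mul_assoc, ← mul_assoc, fC_int hk]
  congr 2
  unfold coX0
  by_cases hi : cls i = true
  · rw [if_pos hi, gC_int_A hi]
  · rw [if_neg hi]
    unfold gC
    rw [if_neg hi]
    ring

end

end Pool.Agent.Helper21.TK
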